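import Pool.Agent.H92.SG.Stmts

/-!
# Module TWC (board sg7): the constants are fixed by the braid group
-/

namespace Pool.Agent.H91.SG

open Pool.Agent.H92.SG

section twc

variable {R : Type} [CommRing R] {m : ℕ}

theorem uu_ge (t : Rˣ) (e : AddChar (ZMod m) R) (a : ℕ → ZMod m) (v : V2 R) (N i : ℕ)
    (h : N ≤ i) : uu t e a v N i = v := by
  cases N with
  | zero => rfl
  | succ N => simp only [uu]; rw [if_pos (by omega)]

theorem uu_lt (t : Rˣ) (e : AddChar (ZMod m) R) (a : ℕ → ZMod m) (N : ℕ) :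
    ∀ (v : V2 R) (i : ℕ), i < N → uu t e a v N i = Gm t e (a i) (uu t e a v N (i + 1)) := by
  induction N with
  | zero => intro v i h; omega
  | succ N ih =>
    intro v i h
    have h1 : uu t e a v (N + 1) i = uu t e a (Gm t e (a N) v) N i := by
      simp only [uu]; rw [if_neg (by omega)]
    rw [h1]
    by_cases hi : i = N
    · subst hi
      rw [uu_ge t e a _ i i le_rfl, uu_ge t e a v (i + 1) (i + 1) le_rfl]
    · have h2 : uu t e a v (N + 1) (i + 1) = uu t e a (Gm t e (a N) v) N (i + 1) := by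
        simp only [uu]; rw [if_neg (by omega)]
      rw [h2]
      exact ih _ i (by omega)

theorem uu_congr (t : Rˣ) (e : AddChar (ZMod m) R) (a a' : ℕ → ZMod m) (N : ℕ) :
    ∀ (v : V2 R) (i : ℕ), (∀ k, i ≤ k → a k = a' k) → uu t e a v N i = uu t e a' v N i := by
  induction N with
  | zero => intro v i _; rfl
  | succ N ih =>
    intro v i h
    simp only [uu]
    by_cases hi : N < i
    · rw [if_pos hi, if_pos hi]
    · rw [if_neg hi, if_neg hi, h N (by omega)]
      exact ih _ i h

theorem uu_below (t : Rˣ) (e : AddChar (ZMod m) R) (a a' : ℕ → ZMod m) (N : ℕ) (v : V2 R)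
    (k : ℕ) (hk : k ≤ N) (hu : uu t e a v N k = uu t e a' v N k) (h : ∀ i, i < k → a i = a' i) :
    ∀ d, d ≤ k → uu t e a v N (k - d) = uu t e a' v N (k - d) := by
  intro d
  induction d with
  | zero => intro _; simpa using hu
  | succ d ih =>
    intro hd
    have h1 := ih (by omega)
    have h2 : k - (d + 1) + 1 = k - d := by omega
    rw [uu_lt t e a N v (k - (d + 1)) (by omega), uu_lt t e a' N v (k - (d + 1)) (by omega), h2,
      h1, h _ (by omega)]

theorem cst_sigma (hTWA : TwA) (hDIHA : DihA) (t : Rˣ) (e : AddChar (ZMod m) R) (N j : ℕ)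
    (hj : j + 1 < N) (a : ℕ → ZMod m) (v : V2 R) :
    tw t e (σ j) a (cst t e N a v) = cst t e N (dih _ (σ j) a) v := by
  have hσ := hTWA.σ_apply R m t e j a (cst t e N a v)
  have hd := hDIHA.σ_apply (ZMod m) j a
  set a' := dih (ZMod m) (σ j) a with ha'
  have hlow : ∀ i, i < j → a i = a' i := by
    intro i hi
    rw [hd]; simp only []
    rw [if_neg (by omega), if_neg (by omega)]
  have hhigh : ∀ i, j + 2 ≤ i → a i = a' i := by
    intro i hi
    rw [hd]; simp only []
    rw [if_neg (by omega), if_neg (by omega)]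
  have hj0 : a' j = a (j + 1) := by rw [hd]; simp
  have hj1 : a' (j + 1) = 2 * a (j + 1) - a j := by rw [hd]; simp
  -- the vector `u_{j+2}`
  have hu2 : uu t e a v N (j + 2) = uu t e a' v N (j + 2) := uu_congr t e a a' N v _ hhigh
  have e1 : uu t e a v N (j + 1) = Gm t e (a (j + 1)) (uu t e a v N (j + 2)) :=
    uu_lt t e a N v (j + 1) hj
  have e0 : uu t e a v N j = Gm t e (a j) (uu t e a v N (j + 1)) :=
    uu_lt t e a N v j (by omega)
  have e1' : uu t e a' v N (j + 1) = Gm t e (2 * a (j + 1) - a j) (uu t e a v N (j + 2)) := by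
    rw [uu_lt t e a' N v (j + 1) hj, hj1, ← hu2]
  have e0' : uu t e a' v N j = Gm t e (a (j + 1)) (uu t e a' v N (j + 1)) := by
    rw [uu_lt t e a' N v j (by omega), hj0]
  have ht : ((t⁻¹ : Rˣ) : R) * (t : R) = 1 := by simp
  set w := uu t e a v N (j + 2) with hw
  have hee : ∀ b : ZMod m, e b * e (-b) = 1 := by
    intro b; rw [← AddChar.map_add_eq_mul]; simp
  have hG : Gm t e (a j) (Gm t e (a (j + 1)) w) =
      Gm t e (a (j + 1)) (Gm t e (2 * a (j + 1) - a j) w) := by
    have h1 : e (a (j + 1)) * e (-(2 * a (j + 1) - a j)) = e (a j) * e (-a (j + 1)) := by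
      rw [← AddChar.map_add_eq_mul, ← AddChar.map_add_eq_mul]; congr 1; ring
    have h2 : e (-a (j + 1)) * e (2 * a (j + 1) - a j) = e (-a j) * e (a (j + 1)) := by
      rw [← AddChar.map_add_eq_mul, ← AddChar.map_add_eq_mul]; congr 1; ring
    funext i
    fin_cases i
    · show (t : R) * (e (a j) * ((t : R) * (e (-a (j + 1)) * w 0))) =
        (t : R) * (e (a (j + 1)) * ((t : R) * (e (-(2 * a (j + 1) - a j)) * w 0)))
      linear_combination (-(t : R) * (t : R) * w 0) * h1
    · show (t : R) * (e (-a j) * ((t : R) * (e (a (j + 1)) * w 1))) =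
        (t : R) * (e (-a (j + 1)) * ((t : R) * (e (2 * a (j + 1) - a j) * w 1)))
      linear_combination (-(t : R) * (t : R) * w 1) * h2
  have hu0 : uu t e a v N j = uu t e a' v N j := by
    rw [e0, e1, e0', e1']; exact hG
  have hbelow : ∀ i, i ≤ j → uu t e a v N i = uu t e a' v N i := by
    intro i hi
    have := uu_below t e a a' N v j (by omega) hu0 hlow (j - i) (by omega)
    rwa [show j - (j - i) = i by omega] at this
  have habove : ∀ i, j + 2 ≤ i → uu t e a v N i = uu t e a' v N i := by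
    intro i hi
    exact uu_congr t e a a' N v i (fun k hk => hhigh k (by omega))
  -- the key identity
  have hkey : ((t⁻¹ : Rˣ) : R) • Sv e (a (j + 1)) (cst t e N a v j) =
      w - Gm t e (2 * a (j + 1) - a j) w := by
    have h1 : e (a (j + 1)) * (e (-a j) * e (a (j + 1))) = e (2 * a (j + 1) - a j) := by
      rw [← AddChar.map_add_eq_mul, ← AddChar.map_add_eq_mul]; congr 1; ring
    have h2 : e (-a (j + 1)) * (e (a j) * e (-a (j + 1))) = e (-(2 * a (j + 1) - a j)) := by
      rw [← AddChar.map_add_eq_mul, ← AddChar.map_add_eq_mul]; congr 1; ring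
    have hb := hee (a (j + 1))
    unfold cst
    rw [e0, e1]
    funext i
    fin_cases i
    · show ((t⁻¹ : Rˣ) : R) * (e (a (j + 1)) * ((t : R) * (e (-a (j + 1)) * w 0) -
        (t : R) * (e (-a j) * ((t : R) * (e (a (j + 1)) * w 1))))) =
        w 0 - (t : R) * (e (2 * a (j + 1) - a j) * w 1)
      linear_combination (e (a (j + 1)) * e (-a (j + 1)) * w 0 -
        (t : R) * (e (a (j + 1)) * (e (-a j) * e (a (j + 1)))) * w 1) * ht + (w 0) * hb -
        (t : R) * (w 1) * h1
    · show ((t⁻¹ : Rˣ) : R) * (e (-a (j + 1)) * ((t : R) * (e (a (j + 1)) * w 1) -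
        (t : R) * (e (a j) * ((t : R) * (e (-a (j + 1)) * w 0))))) =
        w 1 - (t : R) * (e (-(2 * a (j + 1) - a j)) * w 0)
      linear_combination (e (a (j + 1)) * e (-a (j + 1)) * w 1 -
        (t : R) * (e (-a (j + 1)) * (e (a j) * e (-a (j + 1)))) * w 0) * ht + (w 1) * hb -
        (t : R) * (w 0) * h2
  rw [hσ]
  funext i
  by_cases h1 : i = j
  · subst h1
    simp only [if_true]
    rw [hkey]
    show cst t e N a v (i + 1) + cst t e N a v i - (w - Gm t e (2 * a (i + 1) - a i) w) =
      cst t e N a' v i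
    unfold cst
    rw [e1', ← hu0, show i + 1 + 1 = i + 2 from rfl, ← hw]
    abel
  · by_cases h2 : i = j + 1
    · subst h2
      simp only [if_neg h1, if_true]
      rw [hkey]
      unfold cst
      rw [e1', show j + 1 + 1 = j + 2 from rfl, ← hu2]
    · simp only [if_neg h1, if_neg h2]
      unfold cst
      rcases Nat.lt_or_ge i j with h3 | h3
      · rw [hbelow i (by omega), hbelow (i + 1) (by omega)]
      · rw [habove i (by omega), habove (i + 1) (by omega)]

end twc

theorem TWC_thm (hTWA : TwA) (hTWB : TwB) (hDIHA : DihA) (hDIHB : DihB) : TwCstStmt := by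
  intro R _ m t e N x hx a v
  revert a
  refine Bn_induction (p := fun x => ∀ a : ℕ → ZMod m,
    tw t e x a (cst t e N a v) = cst t e N (dih _ x a) v) ?_ ?_ ?_ ?_ hx
  · intro a
    rw [hTWA.one]; simp
  · intro i hi a
    exact cst_sigma hTWA hDIHA t e N i hi a v
  · intro x _ y _ ihx ihy a
    rw [hTWA.mul, ihy a, ihx]
    simp [LinearEquiv.mul_apply]
  · intro x _ ih a
    have hb : dih (ZMod m) x (dih (ZMod m) x⁻¹ a) = a := by
      rw [← LinearEquiv.mul_apply, ← map_mul, mul_inv_cancel, map_one]; rfl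
    have h1 := ih (dih (ZMod m) x⁻¹ a)
    rw [hb] at h1
    have h2 := hTWA.mul R m t e x⁻¹ x (dih (ZMod m) x⁻¹ a) (cst t e N (dih (ZMod m) x⁻¹ a) v)
    rw [inv_mul_cancel, hTWA.one, hb, h1] at h2
    exact h2.symm

end Pool.Agent.H91.SG
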